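import Pool.Agent.MP_ed46bc_co.SD.Spec
import Pool.Agent.MP_ed46bc_co.SP.EX

/-! # Row SECA: sections depend only on the order and the exponent -/

namespace Pool.Agent.MP_ed46bc_co.SD

open Pool.Agent.MP_ed46bc_co.SP Pool.Agent.MP_ed46bc_co.SC

universe u

lemma seca_quot (M : Type u) [AddCommGroup M] [Finite M] (x : M) :
    ∃ p : M →+ ZMod (addOrderOf x), Function.Surjective p := by
  have : NeZero (Monoid.exponent (Multiplicative M)) := ⟨Monoid.exponent_ne_zero_of_finite⟩
  obtain ⟨e⟩ := CommGroup.monoidHom_mulEquiv_of_hasEnoughRootsOfUnity (Multiplicative M) ℂ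
  set χ := e.symm (Multiplicative.ofAdd x) with hχ
  have ho : orderOf χ = addOrderOf x := by
    rw [hχ, MulEquiv.orderOf_eq, orderOf_ofAdd_eq_addOrderOf]
  have : Finite χ.range := Finite.of_surjective _ χ.rangeRestrict_surjective
  have hcyc : IsCyclic χ.range := isCyclic_subgroup_units _
  have hc : Nat.card χ.range = addOrderOf x := by
    rw [← ho]
    apply Nat.dvd_antisymm
    · rw [← IsCyclic.exponent_eq_card]
      refine Monoid.exponent_dvd_of_forall_pow_eq_one ?_
      rintro ⟨_, y, rfl⟩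
      apply Subtype.ext
      exact DFunLike.congr_fun (pow_orderOf_eq_one χ) y
    · refine orderOf_dvd_of_pow_eq_one ?_
      refine MonoidHom.ext fun y => ?_
      exact congrArg Subtype.val (pow_card_eq_one' (x := (⟨χ y, y, rfl⟩ : χ.range)))
  rw [← hc]
  let ψ := (zmodCyclicMulEquiv hcyc).symm.toMonoidHom.comp χ.rangeRestrict
  have hψ : Function.Surjective ψ :=
    (zmodCyclicMulEquiv hcyc).symm.surjective.comp χ.rangeRestrict_surjective
  exact ⟨AddMonoidHom.toMultiplicative.symm ψ, hψ⟩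

theorem seca : SECA.{u} := by
  intro G _ _ k j hd hj
  rw [← Nat.card_eq_fintype_card] at hd
  obtain ⟨y, hy⟩ := AddMonoid.exists_addOrderOf_eq_exponent
    (AddMonoid.ExponentExists.of_finite (G := G))
  obtain ⟨x, hx⟩ : ∃ x : G, addOrderOf x = j :=
    ⟨_, addOrderOf_nsmul_addOrderOf_sub (addOrderOf_pos y).ne' (hy ▸ hj)⟩
  have hc : Nat.card (AddSubgroup.zmultiples x) = j := by rw [Nat.card_zmultiples, hx]
  obtain ⟨L, hL⟩ := ex_sub k (G ⧸ AddSubgroup.zmultiples x)
    (ex_dvd_quot _ (by rw [hc, mul_comm]; exact hd))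
  have hm : x ∈ L.comap (QuotientAddGroup.mk' (AddSubgroup.zmultiples x)) := by
    rw [AddSubgroup.mem_comap, QuotientAddGroup.mk'_apply,
      (QuotientAddGroup.eq_zero_iff x).2 (AddSubgroup.mem_zmultiples x)]
    exact L.zero_mem
  obtain ⟨p, hp⟩ := seca_quot (L.comap (QuotientAddGroup.mk' (AddSubgroup.zmultiples x))) ⟨x, hm⟩
  have ho : addOrderOf (⟨x, hm⟩ : L.comap (QuotientAddGroup.mk' (AddSubgroup.zmultiples x))) = j :=
    by rw [← hx, AddSubgroup.addOrderOf_mk]
  subst ho
  exact ⟨_, p, hp, by rw [ex_card_comap, hc, hL, mul_comm]⟩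

end Pool.Agent.MP_ed46bc_co.SD
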