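import Pool.Agent.MP_ed46bc_co.SD.Spec

/-! # Row CMP: compression along an involution -/

namespace Pool.Agent.MP_ed46bc_co.SD

open Finset Pool.Agent.MP_ed46bc_co.SP Pool.Agent.MP_ed46bc_co.SC

universe u

section

variable {G : Type u} [AddCommGroup G] [Fintype G] [DecidableEq G]
variable {R : Type u} [AddCommGroup R] [Fintype R] [DecidableEq R]

lemma cmp_split {V Φ : Finset G} (d : Disjoint V Φ) :
    T (V ∪ Φ) (V ∪ Φ) (V ∪ Φ) = T V V V + 3 * T Φ V V + 3 * T Φ Φ V + T Φ Φ Φ := by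
  simp only [T_union1 d, T_union2 _ d, T_union3 _ _ d]
  rw [T_swap23 V V Φ, T_swap12 V Φ V, T_swap12 V Φ Φ, T_swap23 Φ V Φ]
  ring

lemma cmp_split2 {V Φ : Finset G} (d : Disjoint V Φ) :
    T (V ∪ Φ) V V = T V V V + T Φ V V := T_union1 d _ _

lemma cmp_le (f : G →+ R) {Φ C : Finset G} {C' : Finset R} (hi : Set.InjOn f Φ)
    (hC : ∀ x ∈ C, f x ∈ C') : T Φ Φ C ≤ T (Φ.image f) (Φ.image f) C' := by
  rw [T_eq_card, T_eq_card]
  have : ((Φ ×ˢ Φ).filter fun p : G × G => -p.1 - p.2 ∈ C).card ≤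
      ((Φ.image f ×ˢ Φ.image f).filter fun p : R × R => -p.1 - p.2 ∈ C').card := by
    refine card_le_card_of_injOn (fun p => (f p.1, f p.2)) ?_ ?_
    · intro p hp
      simp only [coe_filter, mem_product, Set.mem_ofPred_eq] at hp ⊢
      refine ⟨⟨mem_image_of_mem _ hp.1.1, mem_image_of_mem _ hp.1.2⟩, ?_⟩
      have := hC _ hp.2
      rwa [map_sub, map_neg] at this
    · intro p hp q hq e
      simp only [coe_filter, mem_product, Set.mem_ofPred_eq, Prod.mk.injEq] at hp hq e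
      exact Prod.ext (hi hp.1.1 hq.1.1 e.1) (hi hp.1.2 hq.1.2 e.2)
  exact_mod_cast this

end

theorem cmp : CMP.{u} := by
  intro G _ _ _ R _ _ _ f W hf hk hW
  classical
  have hneg : ∀ x, -x ∈ W ↔ x ∈ W := fun x => by rw [← mem_ng, hW]
  set U₁ : Finset R := univ.filter fun i => ∀ x, f x = i → x ∈ W with hU
  have m1 : ∀ i, i ∈ U₁ ↔ ∀ x, f x = i → x ∈ W := fun i => by simp [hU]
  set V := pre f U₁ with hV
  have vW : V ⊆ W := fun x hx => (m1 _).1 (mem_pre.1 hx) x rfl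
  set Φ := W \ V with hΦ
  have d : Disjoint V Φ := disjoint_sdiff
  have eW : V ∪ Φ = W := union_sdiff_of_subset vW
  have hi : Set.InjOn f Φ := by
    intro x hx y hy e
    by_contra hne
    have hx' := mem_sdiff.1 (mem_coe.1 hx)
    have hy' := mem_sdiff.1 (mem_coe.1 hy)
    refine hx'.2 (mem_pre.2 ((m1 _).2 fun z hz => ?_))
    have h2 : ({x, y} : Finset G) = pre f {f x} := by
      refine eq_of_subset_of_card_le ?_ ?_
      · intro w hw
        rcases mem_insert.1 hw with rfl | hw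
        · simp
        · rw [mem_singleton.1 hw]; simp [e]
      · rw [card_pre_single hf, hk, card_pair hne]
    have h3 : z ∈ ({x, y} : Finset G) := by rw [h2]; simp [hz]
    rcases mem_insert.1 h3 with rfl | h3
    · exact hx'.1
    · rw [mem_singleton.1 h3]; exact hy'.1
  set Λ := Φ.image f with hΛ
  have d' : Disjoint U₁ Λ := by
    rw [disjoint_left]
    intro i h1 h2
    obtain ⟨x, hx, rfl⟩ := mem_image.1 h2
    exact (mem_sdiff.1 hx).2 (mem_pre.2 h1)
  have n1 : ∀ i, -i ∈ U₁ ↔ i ∈ U₁ := by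
    have : ∀ i, i ∈ U₁ → -i ∈ U₁ := fun i h => (m1 _).2 fun x hx =>
      (hneg x).1 ((m1 _).1 h (-x) (by rw [map_neg, hx, neg_neg]))
    exact fun i => ⟨fun h => by simpa using this _ h, this i⟩
  have n2 : ∀ i, -i ∈ Λ ↔ i ∈ Λ := by
    have : ∀ i, i ∈ Λ → -i ∈ Λ := fun i h => by
      obtain ⟨x, hx, rfl⟩ := mem_image.1 h
      have hx' := mem_sdiff.1 hx
      refine mem_image.2 ⟨-x, mem_sdiff.2 ⟨(hneg x).2 hx'.1, fun h => hx'.2 ?_⟩, map_neg f x⟩
      rw [hV, mem_pre] at h ⊢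
      rwa [map_neg, n1] at h
    exact fun i => ⟨fun h => by simpa using this _ h, this i⟩
  refine ⟨U₁ ∪ Λ, U₁, subset_union_left, ?_, ?_, ?_, ?_⟩
  · ext i; simp only [mem_ng, mem_union, n1, n2]
  · ext i; simp only [mem_ng, n1]
  · rw [← eW, card_union_of_disjoint d, card_union_of_disjoint d', hV, card_pre hf, hk, hΛ,
      card_image_of_injOn hi]
    ring
  · have e1 : T V V V = 4 * T U₁ U₁ U₁ := by rw [hV, T_pre hf, hk]; norm_num
    have e2 : T Φ V V = 2 * T Λ U₁ U₁ := by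
      rw [T_eq_sum_L, T_eq_sum_L, hΛ, sum_image hi, mul_sum]
      refine sum_congr rfl fun x _ => ?_
      rw [hV, L_pre hf, hk]; norm_num
    have e3 : T Φ Φ V ≤ T Λ Λ U₁ := cmp_le f hi fun x hx => mem_pre.1 hx
    have e4 : T Φ Φ Φ ≤ T Λ Λ Λ := cmp_le f hi fun x hx => mem_image_of_mem _ hx
    rw [← eW, cmp_split d, cmp_split d', cmp_split2 d']
    omega

end Pool.Agent.MP_ed46bc_co.SD
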