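import Pool.Agent.MP_ed46bc_co.SD.TOPA

/-! # Row COVA -/

namespace Pool.Agent.MP_ed46bc_co.SD

theorem cova : COVA := by
  intro n e o i a b n0 hp1 oe hi ha hp b0 bn
  classical
  have o0 : o ≠ 0 := by
    rintro rfl
    omega
  obtain ⟨x, j, oj, rfl⟩ := Nat.exists_eq_two_pow_mul_odd o0
  have je : j ∣ e := (Dvd.intro_left _ rfl).trans oe
  have j0 := oj.pos
  have hn : n = j * (2 ^ x * i) := by rw [← hi]; ring
  have hex : ∃ r, j * r ∣ n ∧ b ≤ j * r := ⟨_, hn ▸ dvd_rfl, hn ▸ bn⟩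
  obtain ⟨r1, r2⟩ := Nat.find_spec hex
  have rm := fun r (h : r < Nat.find hex) => Nat.find_min hex h
  generalize Nat.find hex = r at *
  have r0 : r ≠ 0 := by
    rintro rfl
    omega
  have two : ∀ y, 2 * y ∣ n → y < b → b ≤ 2 * y → ∃ v, AdmA n e b v ∧ 0 ≤ v := fun y h1 h2 h3 =>
    ⟨_, topa_free h1 (hp1 2 Nat.prime_two ((Dvd.intro _ rfl).trans h1)) (mul_comm y 2) h3
      (by omega), sq_nonneg _⟩
  by_cases r1' : r = 1
  · subst r1'
    rw [mul_one] at r1 r2
    rcases Nat.even_or_odd b with ⟨w, hw⟩ | ob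
    · exact ⟨_, ⟨1, j, by simpa using r1, je, Or.inl ⟨2 * (w - 1) + 1, 1, ⟨_, rfl⟩, le_rfl,
        Or.inl ⟨by omega, by omega⟩, rfl⟩⟩, by norm_num⟩
    · exact ⟨_, ⟨1, j, by simpa using r1, je, Or.inl ⟨b, 0, ob, by omega,
        Or.inl ⟨by omega, by omega⟩, rfl⟩⟩, by norm_num⟩
  rcases Nat.even_or_odd r with ⟨s, rfl⟩ | orr
  · have c1 : j * s ∣ n := (Dvd.intro 2 (by ring)).trans r1
    refine two (j * s) (by convert r1 using 1; ring) ?_ (by nlinarith)
    by_contra c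
    exact rm s (by omega) ⟨c1, by omega⟩
  obtain ⟨p, pp, s, rfl⟩ := Nat.exists_prime_and_dvd r1'
  have op : Odd p := Nat.Odd.of_mul_left orr
  have os : Odd s := Nat.Odd.of_mul_right orr
  have s0 := os.pos
  have pi : p ∣ i := by
    have h1 : p * s ∣ 2 ^ x * i := Nat.dvd_of_mul_dvd_mul_left j0 (hn ▸ r1)
    exact (Nat.Coprime.pow_right x (Nat.coprime_two_right.2 op)).dvd_of_dvd_mul_left
      ((Dvd.intro _ rfl).trans h1)
  have pa := hp p pp pi
  have c0 : j * s ∣ n := (Dvd.intro p (by ring)).trans r1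
  have dv : ∀ c ≤ a, 2 ^ c * (j * s) ∣ n := fun c hc =>
    (Nat.Coprime.pow_left c (Nat.coprime_two_left.2 (oj.mul os))).mul_dvd_of_dvd_of_dvd
      ((pow_dvd_pow 2 hc).trans ha) c0
  have lt : ∀ c ≤ a, 2 ^ c < p → 2 ^ c * (j * s) < b := by
    intro c hc h
    by_contra d
    refine rm (2 ^ c * s) (Nat.mul_lt_mul_of_pos_right h s0) ⟨?_, ?_⟩
    · convert dv c hc using 1
      ring
    · nlinarith
  by_cases big : 2 ^ a < p
  · have h1 := lt a le_rfl big
    refine ⟨_, topa_free r1 (hp1 p pp ((Dvd.intro_left (j * s) (by ring)).trans r1))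
      (k := j * s) (by ring) r2 ?_, sq_nonneg _⟩
    have h2 : p ≤ 2 ^ a + (p + 1) / 3 := by omega
    have h3 := Nat.mul_le_mul_right (j * s) h2
    nlinarith
  · have hc : ∃ c, p ≤ 2 ^ (c + 1) := ⟨p, by
      have := Nat.lt_two_pow_self (n := p + 1)
      omega⟩
    have d1 := Nat.find_spec hc
    have d2 : 2 ^ Nat.find hc < p := by
      rcases Nat.eq_zero_or_pos (Nat.find hc) with h | h
      · rw [h]
        exact pp.one_lt
      · have := Nat.find_min hc (m := Nat.find hc - 1) (by omega)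
        rw [Nat.sub_add_cancel h] at this
        omega
    generalize Nat.find hc = c at *
    have d3 : c < a := (Nat.pow_lt_pow_iff_right (a := 2) (by norm_num)).1 (by omega)
    refine two (2 ^ c * (j * s)) (by convert dv (c + 1) d3 using 1; ring) (lt c d3.le d2) ?_
    have h3 := Nat.mul_le_mul_right (j * s) d1
    rw [pow_succ] at h3
    nlinarith

end Pool.Agent.MP_ed46bc_co.SD
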