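import Pool.Agent.MP_ed46bc_co.SD.EVA

/-! # Row EV: a primitive compressed set of gain one has one layer -/

namespace Pool.Agent.MP_ed46bc_co.SD

open Finset Pool.Agent.MP_ed46bc_co.SP Pool.Agent.MP_ed46bc_co.SC
open scoped symmDiff

universe u

section

variable {R : Type u} [AddCommGroup R] [Fintype R] [DecidableEq R]

lemma ev_state (hS : SS.{u}) {X : Finset R} (hg : 2 ≤ Gam X X X) :
    ∃ (K : AddSubgroup R) (P : Finset R) (m : ℕ), K ≠ ⊥ ∧ Per K P ∧ Odd m ∧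
      P.card = m * Nat.card K ∧ 2 ≤ (Nat.card K : ℤ) - 3 * (X ∆ P).card ∧
      Gam X X X ≤ ((Nat.card K : ℤ) - 3 * (X ∆ P).card) ^ 2 := by
  obtain ⟨K, P₁, P₂, P₃, ⟨h1, h2, h3, t, ht, e⟩, p1, p2⟩ := hS R X X X hg
  have p3 : 2 ≤ Psi X X X K P₁ P₂ P₃ := by nlinarith
  unfold Psi sig at p2 p3
  obtain rfl : P₁ = P₂ := by
    refine per_eq h1 h2 ?_
    have := card_symmDiff_tri P₁ X P₂
    rw [symmDiff_comm P₁ X] at this
    omega
  obtain rfl : P₁ = P₃ := by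
    refine per_eq h1 h3 ?_
    have := card_symmDiff_tri P₁ X P₃
    rw [symmDiff_comm P₁ X] at this
    omega
  obtain ⟨m, hm⟩ := per_dvd h1
  have q : 3 * m = t := by
    apply Nat.eq_of_mul_eq_mul_right (card_sub_pos K)
    rw [← e, hm]; ring
  refine ⟨K, P₁, m, ne_bot_of_two_le (by omega), h1, ?_, by rw [hm, mul_comm], by omega, ?_⟩
  · rw [Nat.odd_iff] at ht ⊢; omega
  · convert p2 using 2; ring

omit [AddCommGroup R] [Fintype R] in
lemma ev_lam {U₀ U₁ : Finset R} (h : U₁ ⊆ U₀) : (U₀ ∆ U₁).card + U₁.card = U₀.card := by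
  rw [card_symmDiff_eq, sdiff_eq_empty_iff_subset.2 h, card_empty, add_zero,
    card_sdiff_add_card_eq_card h]

lemma T_insert {W : Finset R} {c : R} (hc : c ∉ W) (B C : Finset R) :
    T (insert c W) B C = T W B C + L B C c := by
  rw [T_eq_sum_L, T_eq_sum_L, sum_insert hc]; ring

end

theorem ev (hS : SS.{u}) (h1 : STA.{u}) (h2 : EVA.{u}) : EV.{u} := by
  intro R _ _ _ U₀ U₁ hs n0 n1 z0 hn hg
  obtain ⟨s1, -, s3, s4⟩ := h1 R U₀ U₁
  by_contra hne
  have u1 : 1 ≤ U₁.card := card_pos.2 (nonempty_iff_ne_empty.2 hne)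
  have lam := ev_lam hs
  obtain ⟨l, hl⟩ : ∃ l : ℕ, l = (U₀ ∆ U₁).card := ⟨_, rfl⟩
  have e0 : (U₀.card : ℤ) = l + U₁.card := by omega
  have key : Gam U₀ U₀ U₀ + 3 * Gam U₀ U₁ U₁ - 3 * (l : ℤ) ^ 2 = 1 := by
    rw [← hg]
    unfold Gam
    rw [s3, s1]
    push_cast
    rw [e0]; ring
  have lo : l % 2 = 1 := by
    obtain ⟨t, ht⟩ := Gam_mod (star U₀ U₁) (star U₀ U₁) (star U₀ U₁)
    rw [hg, s1] at ht
    by_contra h
    obtain ⟨w, hw⟩ : ∃ w : ℤ, ((U₀.card + U₁.card : ℕ) : ℤ) = 2 * w :=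
      ⟨U₁.card + l / 2, by omega⟩
    rw [hw] at ht
    have : (1 : ℤ) = 4 * (9 * w ^ 2 + t) := by rw [ht]; ring
    omega
  have l1 : (1 : ℤ) ≤ l := by omega
  have u1' : (1 : ℤ) ≤ U₁.card := by omega
  have g0 : 4 * Gam U₀ U₀ U₀ ≤ 9 * (l : ℤ) ^ 2 ∧ Gam U₀ U₀ U₀ ≤ 9 * (U₁.card : ℤ) ^ 2 := by
    by_cases hg0 : 2 ≤ Gam U₀ U₀ U₀
    · obtain ⟨K, P, m, hK, hP, hm, hc, p1, p2⟩ := ev_state hS hg0
      obtain ⟨a1, a2⟩ := s4 K P ∅ m hn hP (per_empty K) hm
      have b1 := a1 hc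
      have b2 := a2 hK (by simpa using hc)
      have e : U₁ ∆ (∅ : Finset R) = U₁ := symmDiff_bot U₁
      rw [e] at b2
      have b3 := card_symmDiff_tri U₁ U₀ P
      rw [symmDiff_comm U₁ U₀] at b3
      generalize hψ : (Nat.card K : ℤ) - 3 * (U₀ ∆ P).card = ψ at p1 p2
      have c1 : 2 * ψ ≤ 3 * l := by omega
      have c2 : ψ ≤ 3 * U₁.card := by omega
      constructor <;> nlinarith
    · constructor <;> nlinarith
  obtain ⟨g1, g2⟩ := g0
  by_cases hg1 : 2 ≤ Gam U₀ U₁ U₁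
  · obtain ⟨ψ, p0, p1, h⟩ := h2 R U₀ U₁ hs n0 n1 hg1
    have fin : ¬ 2 * ψ ≤ l := fun h => by nlinarith
    rcases h with h | h | ⟨K, P, t, hP, ht, hc, e⟩
    · exact fin (by omega)
    · have c1 : ψ + U₁.card ≤ l := by omega
      have c2 : (U₁.card : ℤ) < ψ := by omega
      nlinarith
    · have b1 := (s4 K P ∅ t hn hP (per_empty K) ht).1 hc
      have b3 := card_symmDiff_tri U₀ U₁ P
      exact fin (by omega)
  · have l2 : l = 1 := by
      by_contra h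
      have : (3 : ℤ) ≤ l := by omega
      nlinarith
    subst l2
    simp only [Nat.cast_one, one_pow] at key g1 e0
    have q0 : Gam U₀ U₀ U₀ = 1 := by omega
    have q1 : Gam U₀ U₁ U₁ = 1 := by omega
    obtain ⟨i, hi, rfl⟩ := exists_eq_insert_iff.2 ⟨hs, (by omega : U₁.card + 1 = U₀.card)⟩
    have e : -i = i := by
      have : -i ∈ insert i U₁ := by rw [← mem_ng, n0]; exact mem_insert_self _ _
      rcases mem_insert.1 this with h | h
      · exact h
      · rw [← mem_ng, n1] at h; exact absurd h hi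
    have cc : -i - i = 0 := by rw [e, sub_self]
    have t1 := T_insert hi U₁ U₁
    have t2 := T_insert hi (insert i U₁) U₁
    have t3 := T_insert hi (insert i U₁) (insert i U₁)
    have r1 := L_insert hi U₁ i
    have r2 := L_insert hi (insert i U₁) i
    rw [cc] at r1 r2
    rw [ind_of_mem z0, L_swap U₁] at r2
    rw [T_swap12 U₁] at t2
    rw [T_swap12 U₁, T_swap23 _ U₁] at t3
    have q2 : Gam U₁ U₁ U₁ = 2 * U₁.card - 4 * L U₁ U₁ i := by
      unfold Gam at q1 ⊢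
      rw [e0, t1] at q1
      linarith
    have q3 : (U₁.card : ℤ) = 2 * L U₁ U₁ i + 2 * ind U₁ 0 := by
      unfold Gam at q0 q1
      rw [e0, t3, t2, t1, r2, r1] at q0
      rw [e0, t1] at q1
      linarith
    rcases mem_insert.1 z0 with rfl | h
    · rw [ind_of_not_mem hi, L_zero n1] at q3
      omega
    · rw [ind_of_mem h] at q3
      obtain ⟨K, P, m, hK, hP, hm, hc, p1, -⟩ := ev_state hS (X := U₁) (by omega)
      have b1 := (s4 K P ∅ m hn hP (per_empty K) hm).1 hc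
      have b3 := card_symmDiff_tri (insert i U₁) U₁ P
      omega

end Pool.Agent.MP_ed46bc_co.SD
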