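import Pool.Agent.MP_ed46bc_co.SD.TOPA
import Pool.Agent.MP_ed46bc_co.SP.Fin

/-! # From the bounds to the minimum number of Schur triples -/

namespace Pool.Agent.MP_ed46bc_co.SD

open Finset Pool.Agent.MP_ed46bc_co.SP Pool.Agent.MP_ed46bc_co.SC

universe u

theorem fin_all (hM : MS2.{u}) (hC : COVA) (hA : SECA.{u}) (hS : SEC.{u}) (G : Type u)
    [AddCommGroup G] [Fintype G] [DecidableEq G] (g : G) (i : ℕ)
    (hi : addOrderOf g * i = Fintype.card G) (hG : ∀ p : ℕ, p.Prime → p ∣ i → p % 3 ≠ 1)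
    (m : ℕ) (hm : m ≤ Fintype.card G) (e : ℕ) (he : e = AddMonoid.exponent G)
    (h : (∃ a : ℕ, 2 ^ a ∣ Fintype.card G ∧ ∀ p : ℕ, p.Prime → p ∣ i → 2 * p ≤ 3 * 2 ^ a) ∨
      ∃ v, AdmA (Fintype.card G) e (Fintype.card G - m) v ∧ 0 ≤ v) (p : ℕ)
    (hp : p = sInf {p : ℕ | ∃ A : Finset G, A.card = m ∧
        (univ.filter fun a : Fin 2 → G => (∀ i, a i ∈ A) ∧ ∑ i, a i ∈ A).card = p}) :
    4 * (p : ℤ) = (3 * (m : ℤ) - Fintype.card G) ^ 2
      - (sSup {v : ℕ | AdmA (Fintype.card G) e (Fintype.card G - m) v} : ℕ) := by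
  have up : ∀ B : Finset G, B.card = Fintype.card G - m →
      4 * (p : ℤ) ≤ (3 * (m : ℤ) - Fintype.card G) ^ 2 - Gam B B (ng B) := by
    intro B hB
    have hBc : Bᶜ.card = m := by rw [card_compl, hB]; omega
    have h1 : p ≤ (univ.filter fun a : Fin 2 → G => (∀ i, a i ∈ Bᶜ) ∧ ∑ i, a i ∈ Bᶜ).card :=
      hp ▸ Nat.sInf_le ⟨Bᶜ, hBc, rfl⟩
    have h2 := fin_count Bᶜ
    have h3 := fin_compl Bᶜ
    rw [compl_compl, hBc] at h3
    have h4 : (p : ℤ) ≤ T Bᶜ Bᶜ (ng Bᶜ) := by rw [← h2]; exact_mod_cast h1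
    linarith
  have two : ∀ v, AdmA (Fintype.card G) e (Fintype.card G - m) v →
      4 * (p : ℤ) ≤ (3 * (m : ℤ) - Fintype.card G) ^ 2 - v := by
    rintro v ⟨k, j, a1, a2, a3⟩
    obtain ⟨B, b1, b2⟩ := (hS G).2.2 _ v ⟨k, j, hA G k j a1 (he ▸ a2), a3⟩
    linarith [up B b1]
  have bdd : BddAbove {v : ℕ | AdmA (Fintype.card G) e (Fintype.card G - m) v} := by
    refine ⟨((3 * (m : ℤ) - Fintype.card G) ^ 2).toNat, fun v hv => ?_⟩
    have := two v hv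
    have h0 : (0 : ℤ) ≤ p := Nat.cast_nonneg p
    omega
  have le : ∀ v, AdmA (Fintype.card G) e (Fintype.card G - m) v →
      v ≤ (sSup {v : ℕ | AdmA (Fintype.card G) e (Fintype.card G - m) v} : ℕ) := by
    intro v hv
    rcases le_or_gt 0 v with h | h
    · obtain ⟨w, rfl⟩ := Int.eq_ofNat_of_zero_le h
      exact_mod_cast le_csSup bdd hv
    · omega
  have one : (3 * (m : ℤ) - Fintype.card G) ^ 2
      - (sSup {v : ℕ | AdmA (Fintype.card G) e (Fintype.card G - m) v} : ℕ) ≤ 4 * (p : ℤ) := by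
    obtain ⟨A0, -, hA0⟩ := exists_subset_card_eq (s := (univ : Finset G)) (n := m) hm
    obtain ⟨A, hA, e1⟩ := Nat.sInf_mem (s := {p : ℕ | ∃ A : Finset G, A.card = m ∧
        (univ.filter fun a : Fin 2 → G => (∀ i, a i ∈ A) ∧ ∑ i, a i ∈ A).card = p}) ⟨_, A0, hA0, rfl⟩
    rw [hp, ← e1, fin_count, fin_compl, hA]
    rcases le_or_gt 1 (Gam Aᶜ Aᶜ (ng Aᶜ)) with h | h
    · obtain ⟨v, v1, v2⟩ := hM G Aᶜ ⟨g, i, hi, hG⟩ h
      rw [card_compl, hA, ← he] at v1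
      linarith [le v v1]
    · omega
  refine le_antisymm ?_ one
  by_cases ne : {v : ℕ | AdmA (Fintype.card G) e (Fintype.card G - m) v}.Nonempty
  · exact two _ (Nat.sSup_mem ne bdd)
  rw [Set.not_nonempty_iff_eq_empty.1 ne, csSup_empty]
  have no : ¬ ∃ v, AdmA (Fintype.card G) e (Fintype.card G - m) v ∧ 0 ≤ v := by
    rintro ⟨v, v1, v2⟩
    obtain ⟨w, rfl⟩ := Int.eq_ofNat_of_zero_le v2
    exact ne ⟨w, v1⟩
  have b0 : Fintype.card G - m = 0 := by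
    by_contra c
    rcases h with ⟨a, a1, a2⟩ | h
    · exact no (hC _ e _ i a _ Fintype.card_pos (he ▸ prime_dvd_exp G)
        (he ▸ AddMonoid.addOrder_dvd_exponent g) hi a1 a2 (by omega) (by omega))
    · exact no h
  have := up ∅ (by rw [b0]; rfl)
  have e2 : Gam (∅ : Finset G) ∅ (ng ∅) = 0 := by simp [Gam, T_eq_sum_L, card_ng]
  rw [e2] at this
  simpa using this

end Pool.Agent.MP_ed46bc_co.SD
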