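import Pool.Agent.MP_ed46bc_co.SD.Spec
import Pool.Agent.MP_ed46bc_co.SP.LB

/-! # Row LIFT -/

namespace Pool.Agent.MP_ed46bc_co.SD

open Pool.Agent.MP_ed46bc_co.SP

lemma lift_mono {k K s S : ℕ} (h1 : k + S ≤ K + s) (h2 : k + 5 * S ≤ K + 5 * s) (h3 : 5 * s ≤ k) :
    ((k : ℤ) - s) * ((k : ℤ) - 5 * s) ≤ ((K : ℤ) - S) * ((K : ℤ) - 5 * S) :=
  mul_le_mul (by omega) (by omega) (by omega) (by omega)

lemma lift_arc (hT : TOPA) {n e k j t s b : ℕ} (hc : ClA n e) (hd : k * j ∣ n) (hj : j ∣ e)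
    (ht : Odd t) (k0 : 0 < k) (hs : 5 * s ≤ k) (hb : b = t * k + s ∨ b + s = t * k)
    (hb' : b ≤ j * k) : ∃ v, AdmA n e b v ∧ ((k : ℤ) - s) * ((k : ℤ) - 5 * s) ≤ v := by
  rcases hb with hb | hb
  · exact ⟨_, ⟨k, j, hd, hj, Or.inl ⟨t, s, ht, by omega, Or.inl ⟨hb, hb'⟩, rfl⟩⟩, le_rfl⟩
  rcases Nat.lt_or_ge (3 * t) (2 * j) with h3 | h3
  · exact ⟨_, ⟨k, j, hd, hj, Or.inl ⟨t, s, ht, by omega, Or.inr ⟨hb, h3⟩, rfl⟩⟩, le_rfl⟩
  have h4 : 2 * j + 1 ≤ 3 * t := by
    obtain ⟨r, rfl⟩ := ht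
    omega
  have h5 := Nat.mul_le_mul_right k h4
  exact ⟨_, (hT n e (j * k) b hc (by rwa [mul_comm]) hb').1 (by nlinarith),
    lb_sq ht (Or.inr hb) (by omega)⟩

theorem lift (hT : TOPA) : LIFT := by
  rintro n e q e' k t s b v hc rfl he ⟨K, j, hK, hj, hv⟩ v1 ht bn hs hb
  have n0 := hc.1
  have k0 : 0 < k := Nat.pos_of_ne_zero fun c => by simp [c] at n0
  have q0 : 0 < q := Nat.pos_of_ne_zero fun c => by simp [c] at n0
  have N0 : 0 < K * j := Nat.pos_of_dvd_of_pos hK q0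
  have K0 : 0 < K := Nat.pos_of_ne_zero fun c => by simp [c] at N0
  have je := hj.trans he
  have dv : K * k * j ∣ k * q := by
    convert Nat.mul_dvd_mul_left k hK using 1
    ring
  have tN : t ≤ K * j := by
    rcases hv with ⟨t', s', -, -, ⟨-, h⟩ | ⟨h1, h2⟩, -⟩ | ⟨h, -, -⟩
    · rwa [mul_comm]
    · have := Nat.mul_le_mul_right K (show t' ≤ j by omega)
      rw [mul_comm K]
      omega
    · exact h
  by_cases bN : b ≤ K * j * k
  swap
  · have e1 : t = K * j := by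
      by_contra c
      have := Nat.mul_le_mul_right k (show t + 1 ≤ K * j by omega)
      rw [add_mul] at this
      omega
    subst e1
    obtain ⟨c, rfl⟩ := hK
    have c1 : c ≠ 1 := by
      rintro rfl
      rw [mul_one, mul_comm] at bn
      exact bN bn
    obtain ⟨p, pp, x, rfl⟩ := Nat.exists_prime_and_dvd c1
    have p2 := Nat.mul_le_mul_right (K * j * k) pp.two_le
    have kk : k ≤ K * j * k := Nat.le_mul_of_pos_left k N0
    obtain ⟨w, w1, w2⟩ := lift_arc hT (k := K * j * k) (j := p) (t := 1) (s := s) (b := b) hc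
      ⟨x, by ring⟩ (hc.2.1 p pp ⟨k * (K * j) * x, by ring⟩) odd_one (by omega) (by omega)
      (Or.inl (by omega)) (by omega)
    exact ⟨w, w1, (lift_mono (by omega) (by omega) hs).trans w2⟩
  have kk : k ≤ K * k := Nat.le_mul_of_pos_left k K0
  rcases hv with ⟨t', s', ot, sK, h, rfl⟩ | ⟨-, h, -⟩
  · have s5 : 5 * s' + 1 ≤ K := by
      by_contra c
      have := mul_nonpos_of_nonneg_of_nonpos (show (0 : ℤ) ≤ K - s' by omega)
        (show (K : ℤ) - 5 * s' ≤ 0 by omega)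
      omega
    have a1 := Nat.mul_le_mul_right k s5
    have a2 : t * k = t' * (K * k) + s' * k ∨ t * k + s' * k = t' * (K * k) := by
      rcases h with ⟨h, -⟩ | ⟨h, -⟩
      · exact Or.inl (by rw [h]; ring)
      · exact Or.inr (by rw [← add_mul, h]; ring)
    rw [add_mul, mul_assoc, one_mul] at a1
    obtain ⟨S, S1, S2⟩ : ∃ S, S ≤ s' * k + s ∧
        (b = t' * (K * k) + S ∨ b + S = t' * (K * k)) := by
      rcases le_total b (t' * (K * k)) with c | c
      · exact ⟨t' * (K * k) - b, by omega, by omega⟩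
      · exact ⟨b - t' * (K * k), by omega, by omega⟩
    obtain ⟨w, w1, w2⟩ := lift_arc hT hc dv je ot (by omega) (by omega) S2
      (by convert bN using 1; ring)
    exact ⟨w, w1, (lift_mono (by omega) (by omega) hs).trans w2⟩
  · have sq := lb_sq (M := K * j) ht hb (by omega)
    have free : K * j * k ≤ b + (j + 1) / 3 * (K * k) →
        AdmA (k * q) e b ((2 * ((K * j * k : ℕ) : ℤ) - 3 * b) ^ 2) := fun c =>
      ⟨K * k, j, dv, je, Or.inr ⟨by convert bN using 1; ring, by convert c using 1; ring,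
        by push_cast; ring⟩⟩
    have a1 := Nat.mul_le_mul_right k h
    rw [add_mul, mul_assoc ((j + 1) / 3)] at a1
    rcases hb with hb | hb
    · exact ⟨_, free (by omega), sq⟩
    by_cases c : K * j + 1 ≤ t + (j + 1) / 3 * K
    · have a2 := Nat.mul_le_mul_right k c
      rw [add_mul, add_mul, mul_assoc ((j + 1) / 3), one_mul] at a2
      exact ⟨_, free (by omega), sq⟩
    have a3 : t = (j - (j + 1) / 3) * K := by
      rw [Nat.sub_mul, mul_comm j]
      omega
    have ot : Odd (j - (j + 1) / 3) := Nat.Odd.of_mul_left (a3 ▸ ht)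
    obtain ⟨w, w1, w2⟩ := lift_arc hT (s := s) (b := b) hc dv je ot (by omega) (by omega)
      (Or.inr (by rw [hb, a3]; ring)) (by convert bN using 1; ring)
    exact ⟨w, w1, (lift_mono (by omega) (by omega) hs).trans w2⟩

end Pool.Agent.MP_ed46bc_co.SD
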