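import Pool.Agent.MP_ed46bc_co.SD.TOPA
import Pool.Agent.MP_ed46bc_co.SP.M

/-! # Row MS2: the upper bound by admissible values -/

namespace Pool.Agent.MP_ed46bc_co.SD

open Finset Pool.Agent.MP_ed46bc_co.SP Pool.Agent.MP_ed46bc_co.SC
open scoped symmDiff

universe u

lemma ms2_state (h : ACC.{u, u}) (hU : UP.{u}) (hS : SS.{u}) (hZ : ZG.{u}) (hL : LIFT)
    (G : Type u) [AddCommGroup G] [Fintype G] [DecidableEq G] (B : Finset G) (hc : Cl2 G)
    (IH : ∀ (Q : Type u) [AddCommGroup Q] [Fintype Q] [DecidableEq Q] (W : Finset Q),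
      Fintype.card Q < Fintype.card G → Cl2 Q → 1 ≤ Gam W W (ng W) →
      ∃ v, AdmA (Fintype.card Q) (AddMonoid.exponent Q) W.card v ∧ Gam W W (ng W) ≤ v)
    (h2 : 1 ≤ Gam B B (ng B)) (st : HasSt B B (ng B)) :
    ∃ v, AdmA (Fintype.card G) (AddMonoid.exponent G) B.card v ∧ Gam B B (ng B) ≤ v := by
  have bn : B.card ≤ Fintype.card G := card_le_univ B
  have ca := cla_of hc
  obtain ⟨Q, _, _, _, f, W, W2, W3, ⟨hf, hk0, odd, prim, g1, good⟩, p1, p2⟩ :=
    hU G (fun Q _ _ _ _ => hS Q) B B (ng B) h2 st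
  obtain rfl : W = W2 := m_eq hf (B := B) (by simp only [Psi, sig] at p1; omega)
  obtain ⟨W3, rfl⟩ : ∃ V, W3 = ng V := ⟨ng W3, by ext; simp [ng]⟩
  simp only [Psi, sig, m_dev, m_ng] at p1 p2
  obtain rfl : W = W3 := m_eq hf (B := B) (by omega)
  rw [m_ng] at odd
  have ow : Odd W.card := by
    rw [Nat.odd_iff] at odd ⊢
    omega
  have cG : Fintype.card G = Fintype.card Q * Nat.card f.ker := by
    simpa [pre] using m_pre hf univ
  have cP := m_pre hf W
  have c1 : (B ∆ pre f W).card = (B \ pre f W).card + (pre f W \ B).card :=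
    card_union_of_disjoint disjoint_sdiff_sdiff
  have c2 := card_sdiff_add_card_inter B (pre f W)
  have c3 := card_sdiff_add_card_inter (pre f W) B
  rw [inter_comm] at c3
  have mp : ∀ x, x ∈ pre f W ↔ f x ∈ W := fun x => by simp [pre]
  obtain ⟨v0, v1, v2⟩ := IH Q W (card_Q_lt hf hk0) (cl2_quot hf hc) g1.ge
  have arc := fun s => hL _ _ _ _ (Nat.card f.ker) W.card s B.card v0 ca (card_G hf) (exp_quot hf)
    v1 (g1 ▸ v2) ow bn
  clear v1 v2
  generalize hk : Nat.card f.ker = k at *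
  have fin : ∀ s : ℕ, s ≤ (B ∆ pre f W).card → ∀ m : ℕ, s ≤ m →
      Gam B B (ng B) ≤ ((k : ℤ) - 3 * (B ∆ pre f W).card) ^ 2 - 4 * (m : ℤ) ^ 2 →
      5 * s ≤ k ∧ Gam B B (ng B) ≤ ((k : ℤ) - s) * ((k : ℤ) - 5 * s) := by
    intro s d1 m d2 d3
    have d1' : (s : ℤ) ≤ (B ∆ pre f W).card := by exact_mod_cast d1
    have d2' : (s : ℤ) ≤ m := by exact_mod_cast d2
    have d0 : (0 : ℤ) ≤ s := Nat.cast_nonneg s
    have d4 : Gam B B (ng B) ≤ ((k : ℤ) - s) * ((k : ℤ) - 5 * s) := by nlinarith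
    refine ⟨?_, d4⟩
    by_contra d5
    have : (k : ℤ) - 5 * s ≤ 0 := by omega
    have := mul_nonpos_of_nonneg_of_nonpos (show (0 : ℤ) ≤ k - s by omega) this
    omega
  rcases le_total (pre f W \ B).card (B \ pre f W).card with a | a
  · by_cases hz : ∀ x ∈ B \ pre f W, ∀ y ∈ B \ pre f W, ex W W (ng W) (f x) = 0 →
        ex W W (ng W) (f y) = 0 → ex (ng W) W W (-f x) = 0 →
        ¬ ((f x = f y ∧ f x + f x ∈ W) ∨ (f x ≠ f y ∧ f x - f y ∈ W))
    · have := m_gain h hf g1 good (S := B \ pre f W) subset_union_left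
        (fun x hx y hy => iff_of_true (mem_sdiff.1 hx).1 (mem_sdiff.1 hy).1) (by omega) hz
      rw [hk] at this
      obtain ⟨d1, d2⟩ := fin ((B \ pre f W).card - (pre f W \ B).card) (by omega) _ (by omega) this
      obtain ⟨v, v1, v2⟩ := arc _ d1 (Or.inl (by omega))
      exact ⟨v, v1, d2.trans v2⟩
    · push Not at hz
      obtain ⟨x, hx, y, hy, e1, e2, e3, e4⟩ := hz
      have x0 : f x ∉ W := fun c => (mem_sdiff.1 hx).2 ((mp x).2 c)
      have y0 : f y ∉ W := fun c => (mem_sdiff.1 hy).2 ((mp y).2 c)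
      rcases hZ Q W prim g1 good _ _ (iff_of_false x0 y0) e1 e2 e3 e4 with b | ⟨-, K, -, -, b⟩
      · exact absurd b.1 x0
      have kd : Nat.card K ∣ Fintype.card Q := by
        rw [← Nat.card_eq_fintype_card]
        exact AddSubgroup.card_addSubgroup_dvd_card K
      generalize Nat.card K = d at b kd
      obtain ⟨t, rfl⟩ : ∃ t, d = W.card + t := ⟨d - W.card, by omega⟩
      have t1 : (W.card + t + 1) / 3 = t := by omega
      have t2 : k ≤ t * k := Nat.le_mul_of_pos_left k (by omega)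
      have t3 : 3 * (W.card * k) + k = 2 * ((W.card + t) * k) := by
        rw [← mul_assoc, ← mul_assoc, ← b]
        ring
      refine ⟨_, (topa _ _ ((W.card + t) * k) B.card ca (cG ▸ Nat.mul_dvd_mul_right kd k) ?_).2
        (W.card + t) (dvd_mul_right _ _) (by omega) ?_, p2.trans ?_⟩
      · rw [add_mul]
        omega
      · rw [t1, Nat.mul_div_cancel_left _ (by omega), add_mul]
        omega
      · exact pow_le_pow_left₀ (by omega) (by omega) 2
  · by_cases hz : ∀ x ∈ pre f W \ B, ∀ y ∈ pre f W \ B, ex W W (ng W) (f x) = 0 →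
        ex W W (ng W) (f y) = 0 → ex (ng W) W W (-f x) = 0 →
        ¬ ((f x = f y ∧ f x + f x ∈ W) ∨ (f x ≠ f y ∧ f x - f y ∈ W))
    · have := m_gain h hf g1 good (S := pre f W \ B) subset_union_right
        (fun x hx y hy => iff_of_false (mem_sdiff.1 hx).2 (mem_sdiff.1 hy).2) (by omega) hz
      rw [hk] at this
      obtain ⟨d1, d2⟩ := fin ((pre f W \ B).card - (B \ pre f W).card) (by omega) _ (by omega) this
      obtain ⟨v, v1, v2⟩ := arc _ d1 (Or.inr (by omega))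
      exact ⟨v, v1, d2.trans v2⟩
    · push Not at hz
      obtain ⟨x, hx, y, hy, e1, e2, e3, e4⟩ := hz
      have x0 : f x ∈ W := (mp x).1 (mem_sdiff.1 hx).1
      have y0 : f y ∈ W := (mp y).1 (mem_sdiff.1 hy).1
      rcases hZ Q W prim g1 good _ _ (iff_of_true x0 y0) e1 e2 e3 e4 with ⟨-, b⟩ | b
      swap
      · exact absurd x0 b.1
      have w1 : W.card = 1 := by rw [b, card_singleton]
      rw [w1, one_mul] at cP
      refine ⟨_, (topa _ _ k B.card ca ⟨_, by rw [cG, mul_comm]⟩ (by omega)).1 (by omega),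
        p2.trans ?_⟩
      · rw [← neg_sq (2 * (k : ℤ) - 3 * B.card)]
        exact pow_le_pow_left₀ (by omega) (by omega) 2

theorem ms2 (h : ACC.{u, u}) (hU : UP.{u}) (hS : SS.{u}) (hZ : ZG.{u}) (hL : LIFT)
    (hI : INV.{u}) (hB : BALL.{u}) (hD : DL.{u}) (hC : CMP.{u}) (hA : STA.{u}) (hE : EV.{u}) :
    MS2.{u} := by
  intro G _ _ _ B hc h2
  induction' hn : Fintype.card G using Nat.strong_induction_on with n ih generalizing G
  subst hn
  have IH : ∀ (Q : Type u) [AddCommGroup Q] [Fintype Q] [DecidableEq Q] (W : Finset Q),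
      Fintype.card Q < Fintype.card G → Cl2 Q → 1 ≤ Gam W W (ng W) →
      ∃ v, AdmA (Fintype.card Q) (AddMonoid.exponent Q) W.card v ∧ Gam W W (ng W) ≤ v :=
    fun Q _ _ _ W h1 h2 h3 => ih _ h1 Q W h2 h3 rfl
  by_cases st : HasSt B B (ng B)
  · exact ms2_state h hU hS hZ hL G B hc IH h2 st
  have g1 : Gam B B (ng B) = 1 := by
    by_contra c
    exact st (HasSt_of_S (hS G B B (ng B)) (by omega))
  obtain ⟨r, ⟨sy, hr, mem⟩, -, -⟩ := hB G B st g1
  rcases Nat.even_or_odd (Fintype.card G) with ev | od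
  swap
  · obtain ⟨d, hd⟩ := hI G B od st g1
    have cw : B.card ≤ addOrderOf d := by
      have := card_le_card (show B ⊆ cos (AddSubgroup.zmultiples d) 0 from
        fun w hw => by simpa using hd w hw)
      rwa [card_cos, Nat.card_zmultiples] at this
    refine ⟨1, ⟨1, addOrderOf d, by simpa using addOrderOf_dvd_card,
      AddMonoid.addOrder_dvd_exponent d,
      Or.inl ⟨B.card, 0, ⟨r, hr⟩, by omega, Or.inl ⟨by omega, by omega⟩, by norm_num⟩⟩, g1.le⟩
  obtain ⟨z, hz⟩ := exists_prime_addOrderOf_dvd_card (G := G) 2 (even_iff_two_dvd.1 ev)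
  obtain ⟨R, _, _, _, f, hf, hk⟩ := exists_quot (AddSubgroup.zmultiples z)
  have k2 : Nat.card f.ker = 2 := by rw [hk, Nat.card_zmultiples, hz]
  have cG := card_G hf
  rw [k2] at cG
  have r0 : 0 < Fintype.card R := Fintype.card_pos
  have cR := cl2_quot hf hc
  obtain ⟨U₀, U₁, sub, s0, s1, cu, ht⟩ := hC G R f B hf k2 sy
  obtain ⟨a1, a2, a3, -⟩ := hA R U₀ U₁
  rw [s0, s1] at a2
  have cu' : (B.card : ℤ) = U₀.card + U₁.card := by exact_mod_cast cu.symm
  have g2 : 1 ≤ Gam (star U₀ U₁) (star U₀ U₁) (star U₀ U₁) := by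
    rw [sy] at g1
    unfold Gam at g1 ⊢
    rw [a1, a3, cu]
    linarith
  by_cases e : U₁ = ∅
  · subst e
    have g3 : 1 ≤ Gam U₀ U₀ (ng U₀) := by
      rw [s0]
      unfold Gam at g2 ⊢
      rw [a1, a3, T_swap12 U₀ ∅, T_eq_sum_L ∅] at g2
      simpa using g2
    obtain ⟨v, v1, v2⟩ := IH R U₀ (by omega) cR g3
    rw [card_empty, add_zero] at cu
    exact ⟨v, cu ▸ admA_mono v1 ⟨2, by omega⟩ (exp_quot hf), by omega⟩
  have cS : Fintype.card (R × ZMod 2) = Fintype.card G := by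
    rw [Fintype.card_prod, ZMod.card]
    omega
  have st2 : HasSt (star U₀ U₁) (star U₀ U₁) (star U₀ U₁) := by
    by_contra c
    have g4 : Gam (star U₀ U₁) (star U₀ U₁) (star U₀ U₁) = 1 := by
      by_contra c'
      exact c (HasSt_of_S (hS _ _ _ _) (by omega))
    obtain ⟨r', ⟨-, -, mem'⟩, -, -⟩ := hB _ (star U₀ U₁) (by rwa [a2]) (by rwa [a2])
    have z0 : (0 : R × ZMod 2) ∈ star U₀ U₁ := (mem' 0).2 (by rw [(hD _ _).1]; omega)
    refine e (hE R U₀ U₁ sub s0 s1 ?_ c g4)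
    simpa [star] using z0
  obtain ⟨v, v1, v2⟩ := ms2_state h hU hS hZ hL (R × ZMod 2) (star U₀ U₁) (cl2_star cR)
    (fun Q _ _ _ W h1 => IH Q W (cS ▸ h1)) (by rwa [a2]) (by rwa [a2])
  rw [a2] at v2
  rw [a1, cu, cS] at v1
  refine ⟨v, admA_mono v1 dvd_rfl ?_, by omega⟩
  refine AddMonoid.exponent_dvd_of_forall_nsmul_eq_zero fun y => Prod.ext ?_ ?_
  · obtain ⟨c, hc⟩ := exp_quot hf
    rw [Prod.smul_fst, hc, mul_nsmul, AddMonoid.exponent_nsmul_eq_zero, nsmul_zero, Prod.fst_zero]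
  · obtain ⟨c, hc⟩ := hz ▸ AddMonoid.addOrder_dvd_exponent z
    rw [Prod.smul_snd, hc, nsmul_eq_mul, Nat.cast_mul, ZMod.natCast_self, zero_mul, zero_mul,
      Prod.snd_zero]

end Pool.Agent.MP_ed46bc_co.SD
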