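import Pool.Agent.MP_ed46bc_co.SD.Spec

/-! # Row STA: the compressed set -/

namespace Pool.Agent.MP_ed46bc_co.SD

open Finset Pool.Agent.MP_ed46bc_co.SP Pool.Agent.MP_ed46bc_co.SC
open scoped symmDiff

universe u

variable {R : Type u} [AddCommGroup R] [Fintype R] [DecidableEq R]

set_option linter.unusedSectionVars false

lemma z2 (a : ZMod 2) : a = 0 ∨ a = 1 := by revert a; decide

lemma z2_ne : (0 : ZMod 2) ≠ 1 := by decide

lemma mem_star {U₀ U₁ : Finset R} {x : R × ZMod 2} :
    x ∈ star U₀ U₁ ↔ (x.1 ∈ U₀ ∧ x.2 = 0) ∨ (x.1 ∈ U₁ ∧ x.2 = 1) := by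
  simp only [star, mem_union, mem_product, mem_singleton]

lemma mem_star0 {U₀ U₁ : Finset R} {x : R} : (x, (0 : ZMod 2)) ∈ star U₀ U₁ ↔ x ∈ U₀ := by
  simp [mem_star]

lemma mem_star1 {U₀ U₁ : Finset R} {x : R} : (x, (1 : ZMod 2)) ∈ star U₀ U₁ ↔ x ∈ U₁ := by
  simp [mem_star]

lemma star_disj (U₀ U₁ : Finset R) :
    Disjoint (U₀ ×ˢ ({0} : Finset (ZMod 2))) (U₁ ×ˢ {1}) := by
  rw [disjoint_left]
  intro x h1 h2
  simp only [mem_product, mem_singleton] at h1 h2
  exact z2_ne (h1.2.symm.trans h2.2)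

lemma card_star (U₀ U₁ : Finset R) : (star U₀ U₁).card = U₀.card + U₁.card := by
  rw [star, card_union_of_disjoint (star_disj _ _)]
  simp

lemma T_dbl {G : Type u} [AddCommGroup G] [Fintype G] [DecidableEq G] (A B C : Finset G) :
    T A B C = ∑ x ∈ A, ∑ y ∈ B, ind C (-x - y) := by
  rw [T_eq_sum_L]
  exact sum_congr rfl fun x _ => sum_ind_mul B _

lemma T_lay (A B C : Finset R) (a b c : ZMod 2) :
    T (A ×ˢ {a}) (B ×ˢ {b}) (C ×ˢ {c}) = if -a - b = c then T A B C else 0 := by
  rw [T_dbl, T_dbl, sum_product]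
  simp only [sum_singleton, sum_product]
  split_ifs with h
  · refine sum_congr rfl fun x _ => sum_congr rfl fun y _ => ?_
    simp only [ind, mem_product, mem_singleton, Prod.neg_mk, Prod.mk_sub_mk, h, and_true]
  · refine sum_eq_zero fun x _ => sum_eq_zero fun y _ => ?_
    simp only [ind, mem_product, mem_singleton, Prod.neg_mk, Prod.mk_sub_mk, h, and_false,
      if_false]

lemma star_symmDiff (U₀ U₁ P₀ P₁ : Finset R) :
    star U₀ U₁ ∆ star P₀ P₁ = star (U₀ ∆ P₀) (U₁ ∆ P₁) := by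
  ext ⟨x, a⟩
  rcases z2 a with rfl | rfl <;> simp only [mem_symmDiff, mem_star0, mem_star1]

lemma card_prod_sub (K : AddSubgroup R) (L : AddSubgroup (ZMod 2)) :
    Nat.card (K.prod L) = Nat.card K * Nat.card L := by
  rw [Nat.card_congr (K.prodEquiv L).toEquiv, Nat.card_prod]

theorem sta : STA.{u} := by
  intro R _ _ _ U₀ U₁
  refine ⟨card_star _ _, ?_, ?_, ?_⟩
  · ext ⟨x, a⟩
    rcases z2 a with rfl | rfl
    · rw [mem_ng, Prod.neg_mk, neg_zero, mem_star0, mem_star0, mem_ng]
    · rw [mem_ng, Prod.neg_mk, show (-1 : ZMod 2) = 1 by decide, mem_star1, mem_star1, mem_ng]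
  · have d := star_disj U₀ U₁
    simp only [star, T_union1 d, T_union2 _ d, T_union3 _ _ d, T_lay]
    rw [if_pos (by decide), if_neg (by decide), if_neg (by decide), if_pos (by decide),
      if_neg (by decide), if_pos (by decide), if_pos (by decide), if_neg (by decide),
      T_swap12 U₁ U₀ U₁, T_swap23 U₁ U₁ U₀, T_swap12 U₁ U₀ U₁]
    ring
  · intro K P₀ P₁ t hn h0 h1 ht
    have hk := card_sub_pos K
    constructor
    · intro hc
      by_contra hlt
      have e : Nat.card (K.prod (⊤ : AddSubgroup (ZMod 2))) = Nat.card K * 2 := by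
        rw [card_prod_sub]; simp
      have hp : Per (K.prod (⊤ : AddSubgroup (ZMod 2))) (star P₀ P₀) := by
        rintro ⟨x, a⟩ hx ⟨y, b⟩ hy
        have h2 : x ∈ P₀ := by
          rcases mem_star.1 hx with h | h <;> exact h.1
        have h3 : x + y ∈ P₀ := h0 x h2 y hy.1
        rw [Prod.mk_add_mk]
        rcases z2 (a + b) with h | h <;> rw [h]
        · exact mem_star0.2 h3
        · exact mem_star1.2 h3
      refine hn ⟨_, _, _, _, ne_bot_of_two_le (by omega), ⟨hp, hp, hp, 3 * t, ?_, ?_⟩, ?_⟩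
      · exact (by decide : Odd 3).mul ht
      · rw [card_star, e, hc]; ring
      · unfold Psi sig
        rw [star_symmDiff, card_star, e]
        omega
    · intro hK hc
      by_contra hlt
      have e : Nat.card (K.prod (⊥ : AddSubgroup (ZMod 2))) = Nat.card K := by
        rw [card_prod_sub]; simp
      have hp : Per (K.prod (⊥ : AddSubgroup (ZMod 2))) (star P₀ P₁) := by
        rintro ⟨x, a⟩ hx ⟨y, b⟩ hy
        have h2 : b = 0 := hy.2
        rw [Prod.mk_add_mk, h2, add_zero]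
        rcases mem_star.1 hx with h | h
        · exact mem_star.2 (Or.inl ⟨h0 x h.1 y hy.1, h.2⟩)
        · exact mem_star.2 (Or.inr ⟨h1 x h.1 y hy.1, h.2⟩)
      have := two_le_of_ne_bot hK
      refine hn ⟨_, _, _, _, ne_bot_of_two_le (by omega), ⟨hp, hp, hp, 3 * t, ?_, ?_⟩, ?_⟩
      · exact (by decide : Odd 3).mul ht
      · rw [card_star, e, hc]; ring
      · unfold Psi sig
        rw [star_symmDiff, card_star, e]
        omega

end Pool.Agent.MP_ed46bc_co.SD
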