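import Pool.Agent.MP_ed46bc_co.SC.All
import Pool.Agent.MP_ed46bc_co.SD.CMP
import Pool.Agent.MP_ed46bc_co.SD.STA
import Pool.Agent.MP_ed46bc_co.SD.EV
import Pool.Agent.MP_ed46bc_co.SD.SECA
import Pool.Agent.MP_ed46bc_co.SD.LIFT
import Pool.Agent.MP_ed46bc_co.SD.COVA
import Pool.Agent.MP_ed46bc_co.SD.MS2
import Pool.Agent.MP_ed46bc_co.SD.Fin

/-!
# Assembly
-/

namespace Pool.Agent.MP_ed46bc_co.SD

open Pool.Agent.MP_ed46bc_co.SP Pool.Agent.MP_ed46bc_co.SC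

universe u

theorem all_ms2 : MS2.{u} :=
  ms2 acc all_up all_ss all_zg (lift topa) all_inv (ball all_ss) dl_thm cmp sta
    (ev all_ss sta (eva all_ss all_up))

end Pool.Agent.MP_ed46bc_co.SD
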