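import Pool.Agent.MP_ed46bc_co.SD.Spec

/-! # Row EVA: the base of the mixed triple -/

namespace Pool.Agent.MP_ed46bc_co.SD

open Finset Pool.Agent.MP_ed46bc_co.SP Pool.Agent.MP_ed46bc_co.SC
open scoped symmDiff

universe u

section

variable {G : Type u} [AddCommGroup G] [Fintype G] [DecidableEq G]
variable {Q : Type u} [AddCommGroup Q] [Fintype Q] [DecidableEq Q]

lemma eva_sym {f : G →+ Q} (hf : Function.Surjective f) {U : Finset G} {W : Finset Q}
    (hU : ng U = U) (h : (U ∆ pre f W).card < Nat.card f.ker) : ng W = W := by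
  have h1 := card_symmDiff_tri (pre f W) U (ng (pre f W))
  have h2 : (U ∆ ng (pre f W)).card = (U ∆ pre f W).card := by
    rw [← card_ng (U ∆ pre f W), ng_symmDiff, hU]
  rw [h2, symmDiff_comm (pre f W) U, ← pre_ng, ← pre_symmDiff, card_pre hf] at h1
  have h3 : (W ∆ ng W).card < 2 := by
    by_contra h4
    have := Nat.mul_le_mul_left (Nat.card f.ker) (not_lt.1 h4)
    omega
  have h4 := card_symmDiff_eq W (ng W)
  have h5 := card_sdiff_int W (ng W)
  rw [card_ng] at h5
  have h6 : W ∆ ng W = ∅ := card_eq_zero.1 (by omega)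
  exact (symmDiff_eq_bot.1 h6).symm

lemma L_zero {W : Finset G} (hW : ng W = W) : L W W 0 = W.card := by
  rw [L_eq_card]
  congr 2
  refine filter_true_of_mem fun y hy => ?_
  rw [neg_zero, zero_sub, ← mem_ng, hW]
  exact hy

lemma L_insert {W : Finset G} {c : G} (hc : c ∉ W) (C : Finset G) (x : G) :
    L (insert c W) C x = L W C x + ind C (-x - c) := by
  unfold L
  rw [sum_ind_mul, sum_ind_mul, sum_insert hc]
  ring

lemma eva_one {W : Finset Q} {c : Q} (hc : c ∉ W) (h1 : ng (insert c W) = insert c W)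
    (h2 : ng W = W) (hg : Good (insert c W) W W) : W = ∅ := by
  have e : -c = c := by
    have : -c ∈ insert c W := by rw [← mem_ng, h1]; exact mem_insert_self _ _
    rcases mem_insert.1 this with h | h
    · exact h
    · rw [← mem_ng, h2] at h; exact absurd h hc
  have cc : -c - c = 0 := by rw [e, sub_self]
  have k1 : ((insert c W).card : ℤ) = W.card + 1 := by
    rw [card_insert_of_notMem hc]; push_cast; ring
  have a1 := (hg.ex_nonneg c).1
  have a2 := (hg.ex_nonneg c).2.1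
  have a3 := (hg.ex_nonneg 0).1
  unfold ex at a1 a2 a3
  rw [if_pos (mem_insert_self _ _), k1] at a1
  rw [if_neg hc, L_insert hc, cc, k1] at a2
  rw [L_zero h2, k1] at a3
  have b0 : (0 : Q) ∉ W := fun h => by
    rw [ind_of_mem h] at a2
    omega
  rw [ind_of_not_mem b0] at a2
  have b1 : (0 : Q) ∈ insert c W := by
    by_contra h
    rw [if_neg h] at a3
    omega
  rcases mem_insert.1 b1 with rfl | h
  · rw [L_zero h2] at a2
    exact card_eq_zero.1 (by omega)
  · exact absurd h b0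

end

theorem eva (hS : SS.{u}) (hU : UP.{u}) : EVA.{u} := by
  intro R _ _ _ U₀ U₁ hs n0 n1 hg
  obtain ⟨Q, _, _, _, f, W₁, W₂, W₃, ⟨hf, -, ho, -, -, hG⟩, p1, p2⟩ :=
    hU R (fun Q _ _ _ _ X Y Z => hS Q X Y Z) U₀ U₁ U₁ (by omega) (HasSt_of_S (hS R _ _ _) hg)
  refine ⟨_, by omega, p2, ?_⟩
  unfold Psi sig at p1 ⊢
  obtain rfl : W₂ = W₃ := by
    refine pre_inj hf (per_eq (per_pre f _) (per_pre f _) ?_)
    have := card_symmDiff_tri (pre f W₂) U₁ (pre f W₃)
    rw [symmDiff_comm (pre f W₂) U₁] at this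
    omega
  have sub : W₂ ⊆ W₁ := by
    intro i hi
    by_contra h
    obtain ⟨x, rfl⟩ := hf i
    have h1 := per_le (per_sdiff (per_pre f W₂) (per_pre f W₁))
      ⟨x, mem_sdiff.2 ⟨mem_pre.2 hi, fun h' => h (mem_pre.1 h')⟩⟩
    have h2 : pre f W₂ \ pre f W₁ ⊆ U₀ ∆ pre f W₁ ∪ U₁ ∆ pre f W₂ := by
      intro y hy
      have := @hs y
      simp only [mem_sdiff, mem_union, mem_symmDiff] at hy ⊢
      tauto
    have h3 := (card_le_card h2).trans (card_union_le _ _)
    omega
  have c1 := card_le_add_symmDiff (pre f W₁) U₀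
  have c2 := card_le_add_symmDiff U₁ (pre f W₂)
  rw [symmDiff_comm, card_pre hf] at c1
  rw [card_pre hf] at c2
  have hle := card_le_card sub
  rcases (by omega : W₁.card = W₂.card ∨ W₁.card = W₂.card + 1 ∨ W₂.card + 2 ≤ W₁.card) with
    h | h | h
  · obtain rfl : W₂ = W₁ := eq_of_subset_of_card_le sub h.le
    refine Or.inr (Or.inr ⟨f.ker, pre f W₂, W₂.card, per_pre f _, ?_, ?_, by ring⟩)
    · rw [Nat.odd_iff] at ho ⊢; omega
    · rw [card_pre hf, mul_comm]
  · obtain ⟨c, hc, rfl⟩ : ∃ c, c ∉ W₂ ∧ W₁ = insert c W₂ := by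
      obtain ⟨c, hc, e⟩ := exists_eq_insert_iff.2 ⟨sub, h.symm⟩
      exact ⟨c, hc, e.symm⟩
    obtain rfl := eva_one hc (eva_sym hf n0 (by omega)) (eva_sym hf n1 (by omega)) hG
    refine Or.inr (Or.inl ?_)
    have e : U₁ ∆ pre f ∅ = U₁ := by rw [pre_empty]; exact symmDiff_bot U₁
    rw [h] at c1
    rw [e]
    simp only [card_empty] at c1
    omega
  · left
    have := Nat.mul_le_mul_left (Nat.card f.ker) h
    rw [mul_add] at this
    omega

end Pool.Agent.MP_ed46bc_co.SD
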