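import Pool.Agent.MP_ed46bc_co.SC.Spec

/-!
# Cyclic sections, groups of any order: definitions and row statements

See the note d15_ed46bc_SD_h66.md.
-/

namespace Pool.Agent.MP_ed46bc_co.SD

open Finset Pool.Agent.MP_ed46bc_co.SP Pool.Agent.MP_ed46bc_co.SC
open scoped symmDiff

universe u

/-- The compressed set. -/
def star {R : Type u} [DecidableEq R] (U₀ U₁ : Finset R) : Finset (R × ZMod 2) :=
  U₀ ×ˢ {0} ∪ U₁ ×ˢ {1}

/-- The admissible values for sets of size `b`, order `n`, exponent `e`. -/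
def AdmA (n e b : ℕ) (v : ℤ) : Prop :=
  ∃ k j : ℕ, k * j ∣ n ∧ j ∣ e ∧
    ((∃ t s : ℕ, Odd t ∧ s ≤ k ∧ ((b = t * k + s ∧ b ≤ j * k) ∨ (b + s = t * k ∧ 3 * t < 2 * j)) ∧
        v = ((k : ℤ) - s) * ((k : ℤ) - 5 * s)) ∨
      (b ≤ k * j ∧ k * j ≤ b + (j + 1) / 3 * k ∧ v = (2 * ((k : ℤ) * j) - 3 * b) ^ 2))

/-- The arithmetic form of the class: divisors with all primes `1 mod 3` divide the exponent. -/
def ClA (n e : ℕ) : Prop :=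
  0 < n ∧ (∀ p : ℕ, p.Prime → p ∣ n → p ∣ e) ∧
    ∀ N : ℕ, N ∣ n → (∀ p : ℕ, p.Prime → p ∣ N → p % 3 = 1) → N ∣ e

/-- The class of groups. -/
def Cl2 (G : Type u) [AddCommGroup G] [Fintype G] : Prop :=
  ∃ (g : G) (i : ℕ), addOrderOf g * i = Fintype.card G ∧ ∀ p : ℕ, p.Prime → p ∣ i → p % 3 ≠ 1

/-! ## Row statements -/

/-- Row CMP: compression along an involution. -/
def CMP : Prop :=
  ∀ (G : Type u) [AddCommGroup G] [Fintype G] [DecidableEq G]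
    (R : Type u) [AddCommGroup R] [Fintype R] [DecidableEq R] (f : G →+ R) (W : Finset G),
    Function.Surjective f → Nat.card f.ker = 2 → ng W = W →
    ∃ U₀ U₁ : Finset R, U₁ ⊆ U₀ ∧ ng U₀ = U₀ ∧ ng U₁ = U₁ ∧ U₀.card + U₁.card = W.card ∧
      T W W W ≤ T U₀ U₀ U₀ + 3 * T U₀ U₁ U₁

/-- Row STA: the compressed set. -/
def STA : Prop :=
  ∀ (R : Type u) [AddCommGroup R] [Fintype R] [DecidableEq R] (U₀ U₁ : Finset R),
    (star U₀ U₁).card = U₀.card + U₁.card ∧ ng (star U₀ U₁) = star (ng U₀) (ng U₁) ∧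
    T (star U₀ U₁) (star U₀ U₁) (star U₀ U₁) = T U₀ U₀ U₀ + 3 * T U₀ U₁ U₁ ∧
    ∀ (K : AddSubgroup R) (P₀ P₁ : Finset R) (t : ℕ),
      ¬ HasSt (star U₀ U₁) (star U₀ U₁) (star U₀ U₁) → Per K P₀ → Per K P₁ → Odd t →
      (P₀.card = t * Nat.card K → 2 * Nat.card K ≤ 3 * ((U₀ ∆ P₀).card + (U₁ ∆ P₀).card)) ∧
      (K ≠ ⊥ → P₀.card + P₁.card = t * Nat.card K →
        Nat.card K ≤ 3 * ((U₀ ∆ P₀).card + (U₁ ∆ P₁).card))

/-- Row EVA: the base of the mixed triple. -/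
def EVA : Prop :=
  ∀ (R : Type u) [AddCommGroup R] [Fintype R] [DecidableEq R] (U₀ U₁ : Finset R),
    U₁ ⊆ U₀ → ng U₀ = U₀ → ng U₁ = U₁ → 2 ≤ Gam U₀ U₁ U₁ →
    ∃ ψ : ℤ, 0 ≤ ψ ∧ Gam U₀ U₁ U₁ ≤ ψ ^ 2 ∧
      (2 * ψ ≤ (U₀.card : ℤ) - U₁.card ∨ ψ + U₁.card ≤ (U₀.card : ℤ) - U₁.card ∨
        ∃ (K : AddSubgroup R) (P : Finset R) (t : ℕ), Per K P ∧ Odd t ∧
          P.card = t * Nat.card K ∧ ψ = Nat.card K - (U₀ ∆ P).card - 2 * (U₁ ∆ P).card)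

/-- Row EV: a primitive compressed set of gain one has one layer. -/
def EV : Prop :=
  ∀ (R : Type u) [AddCommGroup R] [Fintype R] [DecidableEq R] (U₀ U₁ : Finset R),
    U₁ ⊆ U₀ → ng U₀ = U₀ → ng U₁ = U₁ → (0 : R) ∈ U₀ →
    ¬ HasSt (star U₀ U₁) (star U₀ U₁) (star U₀ U₁) →
    Gam (star U₀ U₁) (star U₀ U₁) (star U₀ U₁) = 1 → U₁ = ∅

/-- Row SECA: sections depend only on the order and the exponent. -/
def SECA : Prop :=
  ∀ (G : Type u) [AddCommGroup G] [Fintype G] (k j : ℕ),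
    k * j ∣ Fintype.card G → j ∣ AddMonoid.exponent G → Sec G k j

/-- Row TOPA. -/
def TOPA : Prop :=
  ∀ n e N b : ℕ, ClA n e → N ∣ n → b ≤ N →
    (2 * N < 3 * b → AdmA n e b ((2 * (N : ℤ) - 3 * b) ^ 2)) ∧
    ∀ d : ℕ, d ∣ N → d % 3 = 2 → N ≤ b + (d + 1) / 3 * (N / d) →
      AdmA n e b ((2 * (N : ℤ) - 3 * b) ^ 2)

/-- Row LIFT: from the base to the group. -/
def LIFT : Prop :=
  ∀ (n e q e' k t s b : ℕ) (v : ℤ), ClA n e → n = k * q → e' ∣ e → AdmA q e' t v → 1 ≤ v →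
    Odd t → b ≤ n → 5 * s ≤ k → (b = t * k + s ∨ b + s = t * k) →
    ∃ v', AdmA n e b v' ∧ ((k : ℤ) - s) * ((k : ℤ) - 5 * s) ≤ v'

/-- Row COVA: a nonnegative admissible value exists. -/
def COVA : Prop :=
  ∀ n e o i a b : ℕ, 0 < n → (∀ p : ℕ, p.Prime → p ∣ n → p ∣ e) → o ∣ e → o * i = n →
    2 ^ a ∣ n → (∀ p : ℕ, p.Prime → p ∣ i → 2 * p ≤ 3 * 2 ^ a) → 0 < b → b ≤ n →
    ∃ v, AdmA n e b v ∧ 0 ≤ v

/-- Row MS2: the upper bound by admissible values. -/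
def MS2 : Prop :=
  ∀ (G : Type u) [AddCommGroup G] [Fintype G] [DecidableEq G] (B : Finset G), Cl2 G →
    1 ≤ Gam B B (ng B) →
    ∃ v, AdmA (Fintype.card G) (AddMonoid.exponent G) B.card v ∧ Gam B B (ng B) ≤ v

end Pool.Agent.MP_ed46bc_co.SD
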