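import Pool.Agent.MP_ed46bc_co.SD.Spec
import Pool.Agent.MP_ed46bc_co.SC.SEC

/-! # Row TOPA and the class -/

namespace Pool.Agent.MP_ed46bc_co.SD

open Finset Pool.Agent.MP_ed46bc_co.SP Pool.Agent.MP_ed46bc_co.SC

universe u

lemma topa_free {n e k j N b : ℕ} (h : N ∣ n) (hj : j ∣ e) (eq : k * j = N)
    (hb : b ≤ N) (hb' : N ≤ b + (j + 1) / 3 * k) : AdmA n e b ((2 * (N : ℤ) - 3 * b) ^ 2) := by
  subst eq
  exact ⟨k, j, h, hj, Or.inr ⟨hb, hb', by push_cast; rfl⟩⟩

theorem topa : TOPA := by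
  rintro n e N b ⟨n0, hp1, hc⟩ hN hb
  have N0 : 0 < N := Nat.pos_of_dvd_of_pos hN n0
  refine ⟨fun h => ?_, fun d hd d2 h => ?_⟩
  · by_cases c : ∃ p, p.Prime ∧ p ∣ N ∧ p % 3 ≠ 1
    · obtain ⟨p, hp, pN, p3⟩ := c
      have pe := hp1 p hp (pN.trans hN)
      obtain ⟨k, rfl⟩ := pN
      refine topa_free hN pe (mul_comm k p) hb ?_
      have p2 := hp.two_le
      have h1 : p ≤ 3 * ((p + 1) / 3) := by omega
      have h2 := Nat.mul_le_mul_right k h1
      nlinarith
    · push Not at c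
      exact topa_free hN (hc N hN c) (one_mul _) hb (by omega)
  · obtain ⟨p, hp, pd, p3⟩ := top_prime d d2
    have pe := hp1 p hp ((pd.trans hd).trans hN)
    obtain ⟨x, rfl⟩ := pd
    obtain ⟨c, rfl⟩ := hd
    have e0 : 0 < x := Nat.pos_of_ne_zero fun e0 => by simp [e0] at N0
    rw [Nat.mul_div_cancel_left _ (Nat.mul_pos hp.pos e0)] at h
    refine topa_free hN pe (k := x * c) (by ring) hb ?_
    have h1 : (p * x + 1) / 3 ≤ (p + 1) / 3 * x := by
      have : 3 * ((p + 1) / 3) = p + 1 := by omega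
      have h2 : p * x + 1 ≤ 3 * ((p + 1) / 3 * x) := by rw [← mul_assoc, this]; nlinarith
      omega
    have h2 := Nat.mul_le_mul_right c h1
    rw [mul_assoc] at h2
    omega

lemma prime_dvd_exp (G : Type u) [AddCommGroup G] [Fintype G] (p : ℕ) (hp : p.Prime)
    (h : p ∣ Fintype.card G) : p ∣ AddMonoid.exponent G := by
  have := Fact.mk hp
  obtain ⟨x, hx⟩ := exists_prime_addOrderOf_dvd_card p h
  exact hx ▸ AddMonoid.addOrder_dvd_exponent x

lemma cla_of {G : Type u} [AddCommGroup G] [Fintype G] (h : Cl2 G) :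
    ClA (Fintype.card G) (AddMonoid.exponent G) := by
  obtain ⟨g, i, hg, hi⟩ := h
  refine ⟨Fintype.card_pos, prime_dvd_exp G, fun N hN c => ?_⟩
  have co : N.Coprime i := Nat.coprime_of_dvd fun p hp p1 p2 => hi p hp p2 (c p hp p1)
  exact (co.dvd_of_dvd_mul_right (hg ▸ hN)).trans (AddMonoid.addOrder_dvd_exponent g)

lemma cl2_index {G : Type u} [AddCommGroup G] [Fintype G] {g : G} {i : ℕ}
    (hg : addOrderOf g * i = Fintype.card G) : (AddSubgroup.zmultiples g).index = i := by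
  have := (AddSubgroup.zmultiples g).card_mul_index
  rw [Nat.card_zmultiples, Nat.card_eq_fintype_card, ← hg] at this
  exact Nat.eq_of_mul_eq_mul_left (addOrderOf_pos g) this

lemma cl2_quot {G Q : Type u} [AddCommGroup G] [Fintype G] [AddCommGroup Q] [Fintype Q]
    {f : G →+ Q} (hf : Function.Surjective f) (h : Cl2 G) : Cl2 Q := by
  obtain ⟨g, i, hg, hi⟩ := h
  have h2 := (AddSubgroup.zmultiples g).index_map_dvd hf
  rw [cl2_index hg, AddMonoidHom.map_zmultiples] at h2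
  have h3 := (AddSubgroup.zmultiples (f g)).card_mul_index
  rw [Nat.card_zmultiples, Nat.card_eq_fintype_card] at h3
  exact ⟨f g, _, h3, fun p hp pd => hi p hp (pd.trans h2)⟩

lemma cl2_star {R : Type u} [AddCommGroup R] [Fintype R] (h : Cl2 R) : Cl2 (R × ZMod 2) := by
  obtain ⟨g, i, hg, hi⟩ := h
  refine ⟨(g, 0), i * 2, ?_, fun p hp pd => ?_⟩
  · rw [Prod.addOrderOf_mk, addOrderOf_zero, Nat.lcm_one_right, ← mul_assoc, hg,
      Fintype.card_prod, ZMod.card]
  · rcases (Nat.Prime.dvd_mul hp).1 pd with q | q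
    · exact hi p hp q
    · have := (Nat.prime_dvd_prime_iff_eq hp Nat.prime_two).1 q
      omega

lemma exp_quot {G Q : Type u} [AddCommGroup G] [AddCommGroup Q]
    {f : G →+ Q} (hf : Function.Surjective f) : AddMonoid.exponent Q ∣ AddMonoid.exponent G := by
  refine AddMonoid.exponent_dvd_of_forall_nsmul_eq_zero fun y => ?_
  obtain ⟨x, rfl⟩ := hf y
  rw [← map_nsmul, AddMonoid.exponent_nsmul_eq_zero, map_zero]

lemma admA_mono {n e n' e' b : ℕ} {v : ℤ} (h : AdmA n e b v) (hn : n ∣ n') (he : e ∣ e') :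
    AdmA n' e' b v := by
  obtain ⟨k, j, h1, h2, h3⟩ := h
  exact ⟨k, j, h1.trans hn, h2.trans he, h3⟩

end Pool.Agent.MP_ed46bc_co.SD
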